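import Mathlib
import Pool.Agent.Helper479_half.Upper
import Pool.Agent.Helper479_half.Lower

set_option autoImplicit false

namespace Pool.Agent.Results.MP_475f46_co.RootedHalf

open Pool.Agent.Helper479Half

/-- `c` is a Kempe-coloring of `G` with exactly `k` (nonempty) classes. -/
def IsKempe {V : Type} {k : ℕ} (G : SimpleGraph V) (c : V → Fin k) : Prop :=
  Function.Surjective c ∧ (∀ u v : V, G.Adj u v → c u ≠ c v) ∧
    ∀ i j : Fin k, i ≠ j → (G.induce ({v : V | c v = i ∨ c v = j} : Set V)).Connected

/-- `B` is a clique minor of `G` with `s` members, each of which contains exactly one of the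
vertices `t i`. -/
def IsRootedMinor {V : Type} {k : ℕ} (G : SimpleGraph V) (t : Fin k → V) {s : ℕ}
    (B : Fin s → Set V) : Prop :=
  (∀ a, (B a).Nonempty) ∧ (∀ a, (G.induce (B a)).Connected) ∧
    (∀ a b, a ≠ b → Disjoint (B a) (B b)) ∧
    (∀ a b, a ≠ b → ∃ u ∈ B a, ∃ v ∈ B b, G.Adj u v) ∧
    ∀ a, ∃! i, t i ∈ B a

/-- For Kempe-colorings all of whose classes have two vertices, the largest size of a clique
minor, each member of which contains exactly one vertex of a given transversal, that can be
guaranteed is `k / 2` up to an additive error of order `log k`. -/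
theorem result :
    (∀ k : ℕ, 1 ≤ k → ∀ (V : Type) [Fintype V] (G : SimpleGraph V) (c : V → Fin k),
      IsKempe G c → (∀ i : Fin k, ({v : V | c v = i} : Set V).ncard = 2) →
      ∀ t : Fin k → V, (∀ i : Fin k, c (t i) = i) →
      ∃ (s : ℕ) (B : Fin s → Set V), IsRootedMinor G t B ∧ (k : ℝ) / 2 ≤ s) ∧
    (∀ k : ℕ, 1 ≤ k → ∃ (V : Type) (_ : Fintype V) (G : SimpleGraph V) (c : V → Fin k),
      IsKempe G c ∧ (∀ i : Fin k, ({v : V | c v = i} : Set V).ncard = 2) ∧
      ∀ t : Fin k → V, (∀ i : Fin k, c (t i) = i) →
      ∀ (s : ℕ) (B : Fin s → Set V), IsRootedMinor G t B →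
        (s : ℝ) ≤ k / 2 + 4096 * Real.log (2 * k) + 4) := by
  classical
  refine ⟨?_, ?_⟩
  · rintro k - V _ G c ⟨hs, hp, hK⟩ hcard t ht
    -- the other vertex of each class
    have hb : ∀ i, ∃ b, c b = i ∧ t i ≠ b ∧ ∀ v, c v = i → v = t i ∨ v = b := by
      intro i
      obtain ⟨x, y, hxy, h⟩ := Set.ncard_eq_two.mp (hcard i)
      have hx : c x = i := by
        have : x ∈ ({v : V | c v = i} : Set V) := by rw [h]; left; rfl
        exact this
      have hy : c y = i := by
        have : y ∈ ({v : V | c v = i} : Set V) := by rw [h]; right; rfl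
        exact this
      have hmem : ∀ v, c v = i → v = x ∨ v = y := by
        intro v hv
        have : v ∈ ({v : V | c v = i} : Set V) := hv
        rw [h] at this
        exact this
      rcases hmem (t i) (ht i) with h1 | h1
      · exact ⟨y, hy, by rw [h1]; exact hxy, fun v hv => by rw [h1]; exact hmem v hv⟩
      · exact ⟨x, hx, by rw [h1]; exact hxy.symm, fun v hv => by rw [h1]; exact (hmem v hv).symm⟩
    choose b hb1 hb2 hb3 using hb
    obtain ⟨s, B, h1, h2, h3, h4, -, h6⟩ := lower G c hs hp hK t b ht hb1 hb2
      (fun v => hb3 (c v) v rfl) Finset.univ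
    refine ⟨s, B, ⟨fun a => ?_, h1, h2, h3, h4⟩, ?_⟩
    · obtain ⟨⟨v, hv⟩⟩ := (h1 a).nonempty
      exact ⟨v, hv⟩
    · have h7 : ((k : ℕ) : ℝ) ≤ ((2 * s : ℕ) : ℝ) := by
        have : k ≤ 2 * s := by simpa using h6
        exact_mod_cast this
      push_cast at h7
      linarith
  · intro k hk
    set q := ⌊1024 * Real.log (2 * k)⌋₊ + 2 with hq
    have hkR : (1 : ℝ) ≤ k := by exact_mod_cast hk
    have hlog : 0 ≤ Real.log (2 * (k : ℝ)) := Real.log_nonneg (by linarith)
    have hq1 : 1024 * Real.log (2 * k) < (q : ℝ) - 1 := by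
      have := Nat.lt_floor_add_one (1024 * Real.log (2 * (k : ℝ)))
      rw [hq]
      push_cast
      linarith
    have hq2 : (q : ℝ) - 1 ≤ 1024 * Real.log (2 * k) + 1 := by
      have := Nat.floor_le (show 0 ≤ 1024 * Real.log (2 * (k : ℝ)) by positivity)
      rw [hq]
      push_cast
      linarith
    obtain ⟨M, hM⟩ := exists_good k q (numeric k q hk hq1 (by omega))
    refine ⟨Fin k × Bool, inferInstance, gr k M, Prod.fst, ⟨?_, gr_proper k M, ?_⟩, ?_, ?_⟩
    · intro i; exact ⟨(i, true), rfl⟩
    · intro i j hij
      exact kempe_of_missing (gr k M) (fun i j hij => gr_missing k M i j hij) i j hij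
    · intro i
      rw [Set.ncard_eq_two]
      refine ⟨(i, true), (i, false), by simp, ?_⟩
      ext ⟨j, x⟩
      rcases x with _ | _ <;> simp
    · rintro t ht s B ⟨hne, hcon, hdis, hadj, hroot⟩
      let B' : Fin s → Finset (Fin k × Bool) := fun a => (B a).toFinset
      have hmem : ∀ a v, v ∈ B' a ↔ v ∈ B a := by
        intro a v
        simp [B']
      have hCM : CM (gr k M) s B' := by
        refine ⟨?_, ?_, ?_, ?_⟩
        · intro a
          obtain ⟨v, hv⟩ := hne a
          exact ⟨v, (hmem a v).mpr hv⟩
        · intro a ha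
          obtain ⟨u, hu⟩ := hne a
          have hu' := (hmem a u).mpr hu
          by_cases h1 : ∃ v ∈ B' a, v ≠ u
          · obtain ⟨v, hv, hvu⟩ := h1
            have hsub : ({u, v} : Finset (Fin k × Bool)) ⊆ B' a := by
              intro w hw
              rcases Finset.mem_insert.mp hw with rfl | hw
              · exact hu'
              · rw [Finset.mem_singleton.mp hw]; exact hv
            have hc2 : ({u, v} : Finset (Fin k × Bool)).card = 2 := Finset.card_pair hvu.symm
            have heq : ({u, v} : Finset (Fin k × Bool)) = B' a :=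
              Finset.eq_of_subset_of_card_le hsub (by omega)
            refine ⟨u, v, heq.symm, Or.inr ?_⟩
            -- u and v are adjacent
            have hv' := (hmem a v).mp hv
            obtain ⟨p⟩ := (hcon a).preconnected ⟨u, hu⟩ ⟨v, hv'⟩
            obtain ⟨d, -, hd1, hd2⟩ := p.exists_boundary_dart {x | x.1 = u} rfl (by
              intro h
              exact hvu h)
            have hd : (gr k M).Adj d.fst.1 d.snd.1 := d.adj
            have hd1' : d.fst.1 = u := hd1
            have hd2' : d.snd.1 ≠ u := hd2
            have hsn : d.snd.1 = v := by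
              have : d.snd.1 ∈ B' a := (hmem a _).mpr d.snd.2
              rw [← heq] at this
              rcases Finset.mem_insert.mp this with h | h
              · exact absurd h hd2'
              · exact Finset.mem_singleton.mp h
            rw [hd1', hsn] at hd
            exact gr_proper k M u v hd
          · push Not at h1
            refine ⟨u, u, ?_, Or.inl rfl⟩
            ext w
            simp only [Finset.mem_insert, Finset.mem_singleton, or_self]
            exact ⟨fun hw => h1 w hw, fun hw => hw ▸ hu'⟩
        · intro a a' h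
          rw [Finset.disjoint_left]
          intro v hv hv'
          exact Set.disjoint_left.mp (hdis a a' h) ((hmem a v).mp hv) ((hmem a' v).mp hv')
        · intro a a' h
          obtain ⟨u, hu, v, hv, huv⟩ := hadj a a' h
          exact ⟨u, (hmem a u).mpr hu, v, (hmem a' v).mpr hv, huv⟩
      have hT : ∀ a, ∃! i, t i ∈ B' a := by
        intro a
        simpa [hmem] using hroot a
      have hs1 := few_small (gr k M) hM B' hCM (by omega)
      have hs2 := few_large (gr k M) t ht B' hCM hT
      have hsum : (Finset.univ.filter (fun a => (B' a).card ≤ 2)).card +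
          (Finset.univ.filter (fun a => ¬ (B' a).card ≤ 2)).card = s := by
        rw [Finset.card_filter_add_card_filter_not]
        simp
      set x := (Finset.univ.filter (fun a => (B' a).card ≤ 2)).card
      set y := (Finset.univ.filter (fun a => ¬ (B' a).card ≤ 2)).card
      have e1 : (x : ℝ) ≤ 4 * ((q : ℝ) - 1) := by
        have : (x : ℝ) ≤ ((4 * (q - 1) : ℕ) : ℝ) := by exact_mod_cast hs1
        rw [Nat.cast_mul, Nat.cast_sub (by omega)] at this
        push_cast at this
        exact this
      have e2 : 2 * (y : ℝ) ≤ k := by exact_mod_cast hs2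
      have e3 : (x : ℝ) + y = s := by exact_mod_cast hsum
      linarith

end Pool.Agent.Results.MP_475f46_co.RootedHalf
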