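import Mathlib
import Pool.Agent.Helper479_cactus.Main

set_option autoImplicit false

namespace Pool.Agent.Results.MP_475f46_co.ShortCycles

open Pool.Agent.Helper479Cactus

/-- Let `F` be the graph on the colors in which two colors are joined if their transversal
vertices are not adjacent. If `F` has no cycle of length at least four, and the transversal
vertices of any two colors joined in `F` are connected by a path in the union of the two
classes, then there is a clique minor traversed by the transversal. -/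
theorem result :
    ∀ (k : ℕ) (V : Type) (G : SimpleGraph V) (c : V → Fin k) (t : Fin k → V),
      (∀ i : Fin k, c (t i) = i) →
      (∀ i j : Fin k, i ≠ j → ¬ G.Adj (t i) (t j) →
        ∃ p : G.Walk (t i) (t j), ∀ v ∈ p.support, c v = i ∨ c v = j) →
      ∀ F : SimpleGraph (Fin k), (∀ i j : Fin k, F.Adj i j ↔ i ≠ j ∧ ¬ G.Adj (t i) (t j)) →
      (∀ (i : Fin k) (p : F.Walk i i), p.IsCycle → p.length ≤ 3) →
      ∃ B : Fin k → Set V,
        (∀ i : Fin k, (B i).Nonempty) ∧
        (∀ i : Fin k, (G.induce (B i)).Connected) ∧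
        (∀ i j : Fin k, i ≠ j → Disjoint (B i) (B j)) ∧
        (∀ i j : Fin k, i ≠ j → ∃ u ∈ B i, ∃ v ∈ B j, G.Adj u v) ∧
        (∀ i : Fin k, ∃! j : Fin k, t j ∈ B i) := by
  intro k V G c t ht hw F hF hcyc
  have hinj : ∀ i j, t i = t j → i = j := by
    intro i j h
    rw [← ht i, h, ht j]
  obtain ⟨B, hB1, hB2, hB3, -, hB5⟩ := main G F c t hcyc
    (fun i j hij => hw i j ((hF i j).mp hij).1 ((hF i j).mp hij).2) Finset.univ
    (fun i => {t i}) (fun i _ => singleton_conn G (t i)) (fun i _ => rfl)
    (fun i _ j _ hij => by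
      rw [Set.disjoint_singleton]
      exact fun h => hij (hinj i j h))
    (fun i _ j _ hij v hv => by
      rw [Set.mem_singleton_iff] at hv
      rw [hv, ht i]
      exact hij)
  have hmem : ∀ i, t i ∈ B i := fun i => hB2 i (Finset.mem_univ _) rfl
  refine ⟨B, fun i => ⟨t i, hmem i⟩, fun i => hB1 i (Finset.mem_univ _),
    fun i j hij => hB3 i (Finset.mem_univ _) j (Finset.mem_univ _) hij, ?_, ?_⟩
  · intro i j hij
    by_cases hadj : G.Adj (t i) (t j)
    · exact ⟨t i, hmem i, t j, hmem j, hadj⟩
    · exact hB5 i (Finset.mem_univ _) j (Finset.mem_univ _) ((hF i j).mpr ⟨hij, hadj⟩)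
  · intro i
    refine ⟨i, hmem i, ?_⟩
    intro j hj
    by_contra hne
    exact Set.disjoint_left.mp (hB3 j (Finset.mem_univ _) i (Finset.mem_univ _) hne) (hmem j) hj

end Pool.Agent.Results.MP_475f46_co.ShortCycles
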