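import Mathlib
import Pool.Agent.Helper479_crown.Koenig

set_option autoImplicit false

namespace Pool.Agent.Results.MP_475f46_co.TwoCliques

open Pool.Agent.Helper479Crown

/-- Let `c` be a Kempe-coloring with `k` classes and transversal `t` such that for any two
nonadjacent transversal vertices `t i`, `t j` both classes have at most two vertices or the union
of the two classes without `t j` is connected. Let `F` be the graph on the colors in which two
colors are joined if their transversal vertices are not adjacent. If the transversal is the union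
of two cliques, or there is a set `C` of colors that is matched in `F` into isolated vertices of
`F - C` and `F - C` has no cycle of length at least four, then there is a clique minor of size `k`
traversed by the transversal. -/
theorem result :
    ∀ (k : ℕ) (V : Type) (G : SimpleGraph V) (c : V → Fin k) (t : Fin k → V),
      (∀ u v : V, G.Adj u v → c u ≠ c v) →
      (∀ i : Fin k, c (t i) = i) →
      (∀ i j : Fin k, i ≠ j → (G.induce {v | c v = i ∨ c v = j}).Connected) →
      (∀ i j : Fin k, i ≠ j → ¬ G.Adj (t i) (t j) →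
        ({v | c v = i}.encard ≤ 2 ∧ {v | c v = j}.encard ≤ 2) ∨
        (G.induce {v | (c v = i ∨ c v = j) ∧ v ≠ t j}).Connected) →
      ∀ F : SimpleGraph (Fin k), (∀ i j : Fin k, F.Adj i j ↔ i ≠ j ∧ ¬ G.Adj (t i) (t j)) →
      ((∃ S : Set (Fin k), (∀ i ∈ S, ∀ j ∈ S, i ≠ j → G.Adj (t i) (t j)) ∧
          (∀ i ∉ S, ∀ j ∉ S, i ≠ j → G.Adj (t i) (t j))) ∨
        (∃ (C : Finset (Fin k)) (μ : Fin k → Fin k),
          (∀ i ∈ C, μ i ∉ C ∧ F.Adj i (μ i)) ∧
          (∀ i ∈ C, ∀ j ∈ C, μ i = μ j → i = j) ∧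
          (∀ i ∈ C, ∀ j : Fin k, F.Adj (μ i) j → j ∈ C) ∧
          (∀ (i : Fin k) (p : F.Walk i i), p.IsCycle → (∀ x ∈ p.support, x ∉ C) →
            p.length ≤ 3))) →
      ∃ B : Fin k → Set V,
        (∀ i : Fin k, (B i).Nonempty) ∧
        (∀ i : Fin k, (G.induce (B i)).Connected) ∧
        (∀ i j : Fin k, i ≠ j → Disjoint (B i) (B j)) ∧
        (∀ i j : Fin k, i ≠ j → ∃ u ∈ B i, ∃ v ∈ B j, G.Adj u v) ∧
        (∀ i : Fin k, ∃! j : Fin k, t j ∈ B i) := by
  classical
  intro k V G c t hc ht hK hcut F hF hor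
  have hcut' : ∀ i j : Fin k, F.Adj i j →
      (G.induce {v | (c v = i ∨ c v = j) ∧ v ≠ t j}).Connected := by
    intro i j hij
    obtain ⟨hne, hna⟩ := (hF i j).mp hij
    rcases hcut i j hne hna with h | h
    · exact small G c t hc ht i j hne hna (hK i j hne) h.1 h.2
    · exact h
  have main : ∀ (C : Finset (Fin k)) (μ : Fin k → Fin k),
      (∀ i ∈ C, μ i ∉ C ∧ F.Adj i (μ i)) →
      (∀ i ∈ C, ∀ j ∈ C, μ i = μ j → i = j) →
      (∀ i ∈ C, ∀ j : Fin k, F.Adj (μ i) j → j ∈ C) →
      (∀ (i : Fin k) (p : F.Walk i i), p.IsCycle → (∀ x ∈ p.support, x ∉ C) → p.length ≤ 3) →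
      ∃ B : Fin k → Set V,
        (∀ i : Fin k, (B i).Nonempty) ∧
        (∀ i : Fin k, (G.induce (B i)).Connected) ∧
        (∀ i j : Fin k, i ≠ j → Disjoint (B i) (B j)) ∧
        (∀ i j : Fin k, i ≠ j → ∃ u ∈ B i, ∃ v ∈ B j, G.Adj u v) ∧
        (∀ i : Fin k, ∃! j : Fin k, t j ∈ B i) := by
    intro C μ h1 h2 h3 h4
    refine crown G c t hc ht (fun i j hij _ => hK i j hij) C μ (fun i hi => (h1 i hi).1) h2 ?_
      (fun i hi => hcut' i (μ i) (h1 i hi).2) F hF h4
    intro i hi j hj hne
    by_contra hna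
    exact hj (h3 i hi j ((hF _ _).mpr ⟨hne.symm, hna⟩))
  rcases hor with ⟨S, hS1, hS2⟩ | ⟨C, μ, h1, h2, h3, h4⟩
  · obtain ⟨C, μ, hC, hμ, hinj⟩ := koenig F (fun i => i ∈ S) (by
      intro i j hij
      obtain ⟨hne, hna⟩ := (hF i j).mp hij
      constructor
      · intro hi hj
        exact hna (hS1 i hi j hj hne)
      · intro hj
        by_contra hi
        exact hna (hS2 i hi j hj hne))
    refine main C μ (fun i hi => ⟨(hμ i hi).2, (hμ i hi).1⟩) hinj ?_ ?_
    · intro i hi j hij
      rcases hC _ _ hij with h | h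
      · exact absurd h (hμ i hi).2
      · exact h
    · intro i p hp hpC
      exfalso
      cases p with
      | nil => exact absurd hp SimpleGraph.Walk.not_isCycle_nil
      | cons h q =>
        rcases hC _ _ h with h' | h'
        · exact hpC _ (by simp) h'
        · exact hpC _ (by simp) h'
  · exact main C μ h1 h2 h3 h4

end Pool.Agent.Results.MP_475f46_co.TwoCliques
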